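import Pool.Agent.N858.PB.Pull

set_option autoImplicit false

open Finset Polynomial Pool.Agent.W432.PC Pool.Agent.Y227.SS Pool.Agent.R927
open Pool.Agent.W77.IM (CoordRing)
open Pool.Agent.N858 Pool.Agent.N858.PC Pool.Agent.N858.R3 Pool.Agent.N858.PB

/-!
# Flat bundles on curves which contain the pull-back of a system of rank two with at most five points
# with nonintegral differences of exponents

Let `C` be a curve over a finitely generated field of characteristic zero with a finite map
`x : C → ℙ¹`, and let `(E, ∇)` be a flat bundle on `C` (or on an open part of `C`) whose generic fibre
contains the pull-back of a Fuchsian system `d/dx - ∑ j, A j / (x - α j)` on `ℙ¹` with rational exponents,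
whose differences at every point have a common denominator with large prime factors only. (If `x` is
ramified to orders divisible by this denominator over the singular points, the pull-back of the system
is, up to a twist by a connection of rank one, a flat bundle without singularities, so `C` may be a
proper curve of any large genus.) It is not assumed that `E` or the pull-back is irreducible.

Proof. If the `p`-curvature of `E` vanishes at `𝔪`, that of the system vanishes at `𝔪`, for almost all `𝔪`
(`R927/PB2`), so our theorem on systems (`MP_ba03d2_ag.FivePoints`) applies.
-/

namespace Pool.Agent.Results.MP_0707f5_ag.PullbackFivePoints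

universe u v w

/-- For every number `n` of finite singular points there are `ε > 0` and `B` with the following property.

Let `R` be a domain of characteristic zero, of finite type over `ℤ`, let `F` be a field containing
`R` (the function field of a curve) with an `R`-linear derivation `δ` and `δ x = 1`, let `V` be a vector
space over `F` with a connection `∇`, let `T ∈ R[x]` be nonzero and let `E ⊆ V` be a finitely generated
`R[x, 1/T]`-module which is stable under `∇` and generates `V` over the rational functions of `x`
(`IsModel`; a flat bundle on the part `T ≠ 0` of the curve, spread out over `Spec R`). Assume that `V`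
contains the pull-back (`HasPullback`) of the system `d/dx - ∑ j, A j / (x - α j)` of rank two, where
`α 0, ..., α (n - 1)` are elements of `R` with invertible differences, and that this system has rational
exponents `lam j l` (eigenvalues of `A j`) and `phi l` (eigenvalues of `∑ j, A j`), with common
denominator `N`. Assume that the differences of the two exponents at every point have a
common denominator without prime factors `≤ B` (`Rough`), and that the difference is an integer at all
but at most five of the `n + 1` singular points. The accessory parameters of the system are arbitrary.

Then one of the following holds.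

(a) `Resonance`: there is a choice of one exponent at every singular point with integral sum.

(b) There are a set of at least `ε * φ(N)` residue classes modulo `N`, prime to `N`, and a nonzero `g`
in `R` such that the `p`-curvature of `E` is nonzero at all the closed points of `Spec R[1/g]` whose
residue characteristic is a large prime in one of these classes (`BadModelClasses`). In particular (H)
fails for `(E, ∇)`. -/
theorem result (n : ℕ) :
    ∃ (ε : ℝ) (B : ℕ), 0 < ε ∧
      ∀ (R : Type u) [CommRing R] [IsDomain R] [CharZero R] [Algebra.FiniteType ℤ R]
        (F : Type v) [Field F] [Algebra R F] (δ : Derivation R F F) (x : F)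
        (V : Type w) [AddCommGroup V] [Module F V] (nabla : V →+ V) (T : R[X])
        (E : Submodule (CoordRing x T R) V) (α : Fin n → R)
        (A : Fin n → Matrix (Fin 2) (Fin 2) R) (v : Fin 2 → V)
        (lam : Fin n → Fin 2 → ℚ) (phi : Fin 2 → ℚ) (N : ℕ),
        Function.Injective (algebraMap R F) → δ x = 1 → T ≠ 0 → IsModel x T nabla E →
        HasPullback α A δ x nabla v →
        (∀ i j, i ≠ j → IsUnit (α i - α j)) →
        (∀ j, HasExponents (A j) (lam j)) → HasExponents (∑ j, A j) phi →
        0 < N → (∀ j l, ∃ m : ℤ, (N : ℚ) * lam j l = m) → (∀ l, ∃ m : ℤ, (N : ℚ) * phi l = m) →
        Rough B (allExp lam phi) → P5.AtMostFive (allExp lam phi) →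
        P5.Resonance (allExp lam phi) ∨ (BadModelClasses nabla E N ε ∧ ¬ HypH nabla E) := by
  obtain ⟨ε, B, hε, h⟩ := P5.five_sys.{u} n
  refine ⟨ε, B, hε, ?_⟩
  intro R _ _ _ _ F _ _ δ x V _ _ nabla T E α A v lam phi N hRF hx hT hE hpb hα hlam hphi hN hNlam
    hNphi hR h5
  exact pull_one hpb hRF hx hT hE (h R α A lam phi N hα hlam hphi hN hNlam hNphi hR h5)

end Pool.Agent.Results.MP_0707f5_ag.PullbackFivePoints
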