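import Pool.Agent.N858.PB.Pull
import Pool.Agent.N858.DS.Final3

set_option autoImplicit false

open Finset Polynomial Pool.Agent.W432.PC Pool.Agent.Y227.SS Pool.Agent.R927
open Pool.Agent.W77.IM (CoordRing)
open Pool.Agent.N858 Pool.Agent.N858.PC Pool.Agent.N858.R3 Pool.Agent.N858.PB
open Pool.Agent.N858.DS

/-!
# Flat bundles on curves which contain the pull-back of an irreducible system with index of rigidity at
# least zero

Let `C` be a curve over a finitely generated field of characteristic zero with a finite map
`x : C → ℙ¹`, and let `(E, ∇)` be a flat bundle on `C` (or on an open part of `C`) whose generic fibre
contains the pull-back of an irreducible Fuchsian system `d/dx - ∑ j, A j / (x - α j)` on `ℙ¹` with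
rational exponents. (If `x` is ramified to orders divisible by the denominator of the differences of
exponents over the singular points, the pull-back of the system is, up to a twist by a connection of
rank one, a flat bundle without singularities, so `C` may be a proper curve of any large genus.) It is
not assumed that `E` or the pull-back is irreducible.

Proof. If the `p`-curvature of `E` vanishes at `𝔪`, that of the system vanishes at `𝔪`, for almost all `𝔪`
(`R927/PB2`), so our theorem on systems (`MP_ba03d2_ag.IndexNonnegative`) applies: the conjugates of the
exponents are the weights of stable parabolic bundles, and for a conjugate for which the difference of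
two exponents at one point is `1 / d` modulo the integers, `d` its denominator, stability gives an
inequality for the multiplicities, which implies that the index of rigidity is negative or that the type
is exceptional. Exceptional types of rank at least four are excluded by matrices with sum zero which
preserve the filtrations of a stable parabolic bundle with nearly equal weights, or by the residues
themselves: three such matrices which satisfy cubic equations, or four with scalar squares, have a common
invariant subspace if the rank is greater than four, or two.

(Parts of the proof for exceptional types are due to helpers 439, 458, 602, 767, 287, 744, 402, 316, 710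
and 51.)
-/

namespace Pool.Agent.Results.MP_0707f5_ag.PullbackIndexNonnegative

universe u v w

/-- For every number `n` of finite singular points and every rank `r ≥ 2` there are `ε > 0` and `B` with
the following property.

Let `R` be a domain of characteristic zero, of finite type over `ℤ`, let `F` be a field containing
`R` (the function field of a curve) with an `R`-linear derivation `δ` and `δ x = 1`, let `V` be a vector
space over `F` with a connection `∇`, let `T ∈ R[x]` be nonzero and let `E ⊆ V` be a finitely generated
`R[x, 1/T]`-module which is stable under `∇` and generates `V` over the rational functions of `x`
(`IsModel`; a flat bundle on the part `T ≠ 0` of the curve, spread out over `Spec R`). Assume that `V`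
contains the pull-back (`HasPullback`) of the system `d/dx - ∑ j, A j / (x - α j)` of rank `r`, where
`α 0, ..., α (n - 1)` are elements of `R` with invertible differences, that the system is irreducible
over every field containing `R`, and that it has rational exponents `lam j l` (eigenvalues of `A j`) and
`phi l` (eigenvalues of `∑ j, A j`), with common denominator `N`. The accessory parameters are
arbitrary. Assume

* (denominators) one of the following: (`RoughSums`) the differences of exponents at the same point and
the sums of exponents, one for each point, have a common denominator all of whose prime factors are
greater than `2 r`; or, more generally, (`MildDen`) if `δ` is the difference of two exponents at a point,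
not an integer, of denominator `d`, and `D` is a sum of exponents, one for each point, including the second
of the two, then `d D` is an integer or its denominator is divisible by a prime power `P` for which
`r ⌈P / d⌉ < φ(P)` (this holds for example if the differences and the sums have a common denominator
which is a prime number); or (`Rough`) the differences alone have a common denominator without prime
factors `≤ B`;

* (multiplicities) that the sum of the squares of the multiplicities of the exponents modulo the
integers is at least `(n - 1) r ^ 2`, i.e. the index of rigidity is at least zero (`IndexNonneg`), or
that (`LargeMult`) there are two exponents at one point, not congruent modulo the integers, and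
exponents at all other points except one, whose multiplicities have a sum greater than `(n - 1) r`.

Then one of the following holds.

(a) (`ExcType`) There are exactly three points where the exponents are not congruent to one another, and
all multiplicities there are `r / 3`, or exactly four such points, and all multiplicities there are
`r / 2`; moreover `LargeMult` does not hold. If no two exponents at the same point differ by a nonzero
integer (`NoShift`), then `r ≤ 3`. If the differences have a common denominator without prime factors
`≤ B`, then `r ≤ 3` and moreover (`Refined`): for `r = 2` the differences of the exponents at the four
points are, in a suitable order, opposite in pairs, and some sum of exponents, one for each point, is an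
integer (`SplitPairs`); for `r = 3` the exponents at the three points agree up to their order and up to
shifts (`SameTriples`).

(b) There are a set of at least `ε * φ(N)` residue classes modulo `N`, prime to `N`, and a nonzero `g`
in `R` such that the `p`-curvature of `E` is nonzero at all the closed points of `Spec R[1/g]` whose
residue characteristic is a large prime in one of these classes (`BadModelClasses`). In particular (H)
fails for `(E, ∇)`. -/
theorem result (n r : ℕ) (hr : 1 < r) :
    ∃ (ε : ℝ) (B : ℕ), 0 < ε ∧
      ∀ (R : Type u) [CommRing R] [IsDomain R] [CharZero R] [Algebra.FiniteType ℤ R]
        (F : Type v) [Field F] [Algebra R F] (δ : Derivation R F F) (x : F)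
        (V : Type w) [AddCommGroup V] [Module F V] (nabla : V →+ V) (T : R[X])
        (E : Submodule (CoordRing x T R) V) (α : Fin n → R)
        (A : Fin n → Matrix (Fin r) (Fin r) R) (v : Fin r → V)
        (lam : Fin n → Fin r → ℚ) (phi : Fin r → ℚ) (N : ℕ),
        Function.Injective (algebraMap R F) → δ x = 1 → T ≠ 0 → IsModel x T nabla E →
        HasPullback α A δ x nabla v →
        (∀ i j, i ≠ j → IsUnit (α i - α j)) → AbsIrreducible α A →
        (∀ j, HasExponents (A j) (lam j)) → HasExponents (∑ j, A j) phi →
        0 < N → (∀ j l, ∃ m : ℤ, (N : ℚ) * lam j l = m) → (∀ l, ∃ m : ℤ, (N : ℚ) * phi l = m) →
        (RoughSums (2 * r) (allExp lam phi) ∨ MildDen (allExp lam phi) ∨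
          Rough B (allExp lam phi)) →
        (LargeMult (allExp lam phi) ∨ IndexNonneg (allExp lam phi)) →
        (ExcType (allExp lam phi) ∧ ¬ LargeMult (allExp lam phi) ∧
          (Rough B (allExp lam phi) → r ≤ 3 ∧ Refined (allExp lam phi)) ∧
          (NoShift (allExp lam phi) → r ≤ 3)) ∨
          (BadModelClasses nabla E N ε ∧ ¬ HypH nabla E) := by
  obtain ⟨ε, B, hε, h⟩ := all_sys4.{u} n r hr
  refine ⟨ε, B, hε, ?_⟩
  intro R _ _ _ _ F _ _ δ x V _ _ nabla T E α A v lam phi N hRF hx hT hE hpb hα hirr hlam hphi hN
    hNlam hNphi hR hI
  exact pull hpb hRF hx hT hE (h R α A lam phi N hα hirr hlam hphi hN hNlam hNphi hR hI)

end Pool.Agent.Results.MP_0707f5_ag.PullbackIndexNonnegative
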